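import Pool.Agent.H11_Height.Basic

namespace Pool.Agent.H11_Height

open Polynomial Finset

variable {p q : ℕ}

/-- The least nonnegative multiple of `p` in the residue class `a` modulo `q`. -/
def w (p q : ℕ) [Fact q.Prime] (a : ZMod q) : ℕ := p * (a * (p : ZMod q)⁻¹).val

lemma cast_ne_zero (hp : p.Prime) [hq : Fact q.Prime] (hpq : p < q) : (p : ZMod q) ≠ 0 := by
  intro h
  rw [ZMod.natCast_eq_zero_iff] at h
  exact absurd (Nat.le_of_dvd hp.pos h) (by omega)

lemma cast_w (hp : p.Prime) [hq : Fact q.Prime] (hpq : p < q) (a : ZMod q) :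
    ((w p q a : ℕ) : ZMod q) = a := by
  have : NeZero q := ⟨hq.out.pos.ne'⟩
  unfold w
  rw [Nat.cast_mul, ZMod.natCast_zmod_val, mul_comm, mul_assoc, inv_mul_cancel₀ (cast_ne_zero hp hpq),
    mul_one]

lemma w_le [hq : Fact q.Prime] (a : ZMod q) : w p q a ≤ p * (q - 1) := by
  have : NeZero q := ⟨hq.out.pos.ne'⟩
  exact Nat.mul_le_mul_left _ (Nat.le_sub_one_of_lt (ZMod.val_lt _))

lemma w_mul (hp : p.Prime) [hq : Fact q.Prime] (hpq : p < q) {i : ℕ} (hi : i < q) :
    w p q ((p * i : ℕ) : ZMod q) = p * i := by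
  have : NeZero q := ⟨hq.out.pos.ne'⟩
  unfold w
  rw [Nat.cast_mul, mul_comm (p : ZMod q), mul_assoc, mul_inv_cancel₀ (cast_ne_zero hp hpq), mul_one,
    ZMod.val_cast_of_lt hi]

/-- The polynomial `∑ i < q, X ^ (p * i)`. -/
noncomputable def G (p q : ℕ) : ℤ[X] := ∑ i ∈ range q, X ^ (p * i)

lemma coeff_G (hp : p.Prime) [hq : Fact q.Prime] (hpq : p < q) (m : ℕ) :
    (G p q).coeff m = if w p q (m : ZMod q) = m then 1 else 0 := by
  have : NeZero q := ⟨hq.out.pos.ne'⟩
  unfold G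
  rw [finsetSum_coeff]
  simp only [coeff_X_pow]
  split_ifs with h
  · have hm : m = p * ((m : ZMod q) * (p : ZMod q)⁻¹).val := h.symm
    rw [Finset.sum_eq_single ((m : ZMod q) * (p : ZMod q)⁻¹).val]
    · rw [if_pos hm]
    · intro b _ hb
      rw [if_neg]
      intro hmb
      apply hb
      have := hmb.symm.trans hm
      exact Nat.eq_of_mul_eq_mul_left hp.pos this
    · intro hn
      exact absurd (Finset.mem_range.2 (ZMod.val_lt _)) hn
  · refine Finset.sum_eq_zero fun i hi => ?_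
    rw [if_neg]
    rintro rfl
    exact h (w_mul hp hpq (Finset.mem_range.1 hi))

/-- Indicator of the threshold. -/
def E (p q : ℕ) [Fact q.Prime] (k m : ℕ) : ℤ := if w p q ((m : ZMod q) - k) + k ≤ m then 1 else 0

def g (p q : ℕ) [Fact q.Prime] (k m : ℕ) : ℤ := if w p q ((m : ZMod q) - k) + k = m then 1 else 0

lemma coeff_X_pow_mul_G (hp : p.Prime) [hq : Fact q.Prime] (hpq : p < q) (k m : ℕ) :
    (X ^ k * G p q).coeff m = g p q k m := by
  rw [coeff_X_pow_mul', g]
  by_cases h : k ≤ m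
  · rw [if_pos h, coeff_G hp hpq, Nat.cast_sub h]
    congr 1
    apply propext
    omega
  · rw [if_neg h, if_neg (by omega)]

lemma E_rec (hp : p.Prime) [hq : Fact q.Prime] (hpq : p < q) (k m : ℕ) :
    E p q k m = (if q ≤ m then E p q k (m - q) else 0) + g p q k m := by
  unfold E g
  have hmod : ((w p q ((m : ZMod q) - k) + k : ℕ) : ZMod q) = (m : ZMod q) := by
    rw [Nat.cast_add, cast_w hp hpq]; ring
  have hmod' : w p q ((m : ZMod q) - k) + k ≡ m [MOD q] := (ZMod.natCast_eq_natCast_iff _ _ _).1 hmod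
  set T := w p q ((m : ZMod q) - k) + k with hT
  by_cases hqm : q ≤ m
  · have hc : (((m - q : ℕ) : ZMod q) - k) = (m : ZMod q) - k := by
      rw [Nat.cast_sub hqm]; simp
    rw [if_pos hqm, hc, ← hT]
    by_cases h1 : T = m
    · have : ¬ T ≤ m - q := by have := hq.out.pos; omega
      rw [if_pos h1, if_neg this, if_pos h1.le]; ring
    · rw [if_neg h1]
      by_cases h2 : T ≤ m
      · have h3 : T ≤ m - q := by
          have hd : q ∣ m - T := (Nat.modEq_iff_dvd' h2).1 hmod'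
          have := Nat.le_of_dvd (by omega) hd
          omega
        rw [if_pos h2, if_pos h3]; ring
      · rw [if_neg h2, if_neg (by omega)]; ring
  · rw [if_neg hqm]
    by_cases h1 : T = m
    · rw [if_pos h1, if_pos h1.le]; ring
    · rw [if_neg h1, if_neg]
      · ring
      · intro h2
        have hd : q ∣ m - T := (Nat.modEq_iff_dvd' h2).1 hmod'
        have := Nat.le_of_dvd (by omega) hd
        omega

lemma rec_unique {q : ℕ} (hq : 0 < q) (a b d : ℕ → ℤ)
    (ha : ∀ m, a m = (if q ≤ m then a (m - q) else 0) + d m)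
    (hb : ∀ m, b m = (if q ≤ m then b (m - q) else 0) + d m) : a = b := by
  funext m
  induction m using Nat.strong_induction_on with
  | _ m ih =>
    rw [ha, hb]
    by_cases h : q ≤ m
    · rw [if_pos h, if_pos h, ih (m - q) (by omega)]
    · rw [if_neg h, if_neg h]

lemma coeff_rec (q : ℕ) (V W : ℤ[X]) (h : V * (X ^ q - 1) = W) (m : ℕ) :
    V.coeff m = (if q ≤ m then V.coeff (m - q) else 0) + (-W.coeff m) := by
  rw [← h, mul_sub, mul_one, coeff_sub, coeff_mul_X_pow']
  ring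

/-- The basic identity `Φ_{pq} (X^q - 1) = (X - 1) G`. -/
lemma cyclo_identity (hp : p.Prime) (hq : q.Prime) (hpq : p < q) :
    cyclotomic (p * q) ℤ * (X ^ q - 1) = (X - 1) * G p q := by
  have h1 : expand ℤ p (cyclotomic q ℤ) = cyclotomic (q * p) ℤ * cyclotomic q ℤ := by
    apply cyclotomic_expand_eq_cyclotomic_mul hp
    intro h
    exact absurd ((Nat.prime_dvd_prime_iff_eq hp hq).1 h) hpq.ne
  have h2 : expand ℤ p (cyclotomic q ℤ) = G p q := by
    have := Fact.mk hq
    rw [cyclotomic_prime, map_sum, G]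
    refine Finset.sum_congr rfl fun i _ => ?_
    rw [map_pow, expand_X, ← pow_mul]
  have h3 : (X - 1 : ℤ[X]) * cyclotomic q ℤ = X ^ q - 1 := by
    have := Fact.mk hq
    rw [mul_comm]
    exact cyclotomic_prime_mul_X_sub_one ℤ q
  rw [← h2, h1, ← h3, mul_comm p q]; ring

lemma coeff_cyclo (hp : p.Prime) [hq : Fact q.Prime] (hpq : p < q) (m : ℕ) :
    (cyclotomic (p * q) ℤ).coeff m = E p q 0 m - E p q 1 m := by
  have key : (fun m => (cyclotomic (p * q) ℤ).coeff m) = fun m => E p q 0 m - E p q 1 m := by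
    refine rec_unique hq.out.pos _ _ (fun m => g p q 0 m - g p q 1 m) ?_ ?_
    · intro m
      rw [coeff_rec q _ _ (cyclo_identity hp hq.out hpq) m]
      have : (X - 1 : ℤ[X]) * G p q = X ^ 1 * G p q - X ^ 0 * G p q := by ring
      rw [this, coeff_sub, coeff_X_pow_mul_G hp hpq, coeff_X_pow_mul_G hp hpq]
      ring
    · intro m
      conv_lhs => rw [E_rec hp hpq 0 m, E_rec hp hpq 1 m]
      split_ifs <;> ring
  exact congrFun key m

lemma coeff_cyclo' (hp : p.Prime) [hq : Fact q.Prime] (hpq : p < q) (m : ℕ) :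
    ((X - 1) * cyclotomic (p * q) ℤ).coeff m =
      -(E p q 0 m - E p q 1 m) + (E p q 1 m - E p q 2 m) := by
  have key : (fun m => ((X - 1) * cyclotomic (p * q) ℤ).coeff m) =
      fun m => -(E p q 0 m - E p q 1 m) + (E p q 1 m - E p q 2 m) := by
    refine rec_unique hq.out.pos _ _
      (fun m => -(g p q 0 m - g p q 1 m) + (g p q 1 m - g p q 2 m)) ?_ ?_
    · intro m
      have hid : (X - 1) * cyclotomic (p * q) ℤ * (X ^ q - 1) = (X - 1) * ((X - 1) * G p q) := by
        rw [mul_assoc, cyclo_identity hp hq.out hpq]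
      rw [coeff_rec q _ _ hid m]
      have : (X - 1 : ℤ[X]) * ((X - 1) * G p q) =
          X ^ 2 * G p q - X ^ 1 * G p q - (X ^ 1 * G p q - X ^ 0 * G p q) := by ring
      rw [this, coeff_sub, coeff_sub, coeff_sub, coeff_X_pow_mul_G hp hpq,
        coeff_X_pow_mul_G hp hpq, coeff_X_pow_mul_G hp hpq]
      ring
    · intro m
      conv_lhs => rw [E_rec hp hpq 0 m, E_rec hp hpq 1 m, E_rec hp hpq 2 m]
      split_ifs <;> ring
  exact congrFun key m

/-- Counting between two thresholds in one residue class. -/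
lemma count_le {q : ℕ} (hq : 0 < q) {A B n : ℕ} (hA : A ≡ n [MOD q]) (hB : B ≡ n [MOD q])
    (hAB : A ≤ B) :
    (q : ℤ) * ∑ j ∈ range (n / q + 1),
      |(if A ≤ n - j * q then (1 : ℤ) else 0) - (if B ≤ n - j * q then 1 else 0)| ≤ (B : ℤ) - A := by
  set f : ℕ → ℤ := fun j => max (A : ℤ) (min ((n : ℤ) - j * q + q) B) with hf
  have hterm : ∀ j ∈ range (n / q + 1),
      (q : ℤ) * |(if A ≤ n - j * q then (1 : ℤ) else 0) - (if B ≤ n - j * q then 1 else 0)| =
        f j - f (j + 1) := by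
    intro j hj
    rw [Finset.mem_range] at hj
    have hjq : j * q ≤ n := (Nat.le_div_iff_mul_le hq).1 (by omega)
    obtain ⟨x, hx⟩ : ∃ x : ℕ, x = n - j * q := ⟨_, rfl⟩
    have hxZ : (n : ℤ) - j * q = x := by
      rw [hx, Nat.cast_sub hjq]; push_cast; ring
    have hxn : x ≡ n [MOD q] := by
      have : n - j * q ≡ n - j * q + j * q [MOD q] := by simp [Nat.ModEq]
      rw [Nat.sub_add_cancel hjq] at this
      rw [hx]; exact this
    have hf1 : f j = max (A : ℤ) (min ((x : ℤ) + q) B) := by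
      simp only [hf]; rw [hxZ]
    have hf2 : f (j + 1) = max (A : ℤ) (min (x : ℤ) B) := by
      simp only [hf]
      have : (n : ℤ) - ((j + 1 : ℕ) : ℤ) * q + q = x := by rw [← hxZ]; push_cast; ring
      rw [this]
    rw [hf1, hf2, ← hx]
    have hAx : A ≡ x [MOD q] := hA.trans hxn.symm
    have hBx : B ≡ x [MOD q] := hB.trans hxn.symm
    by_cases h1 : A ≤ x
    · by_cases h2 : B ≤ x
      · rw [if_pos h1, if_pos h2, min_eq_right (by push_cast; omega), min_eq_right (by exact_mod_cast h2)]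
        simp
      · have hd : q ∣ B - x := (Nat.modEq_iff_dvd' (by omega)).1 hBx.symm
        have := Nat.le_of_dvd (by omega) hd
        rw [if_pos h1, if_neg h2, min_eq_left (by push_cast; omega), min_eq_left (by push_cast; omega),
          max_eq_right (by push_cast; omega), max_eq_right (by push_cast; omega)]
        simp
    · have hd : q ∣ A - x := (Nat.modEq_iff_dvd' (by omega)).1 hAx.symm
      have := Nat.le_of_dvd (by omega) hd
      rw [if_neg h1, if_neg (by omega), min_eq_left (by push_cast; omega),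
        min_eq_left (by push_cast; omega), max_eq_left (by push_cast; omega),
        max_eq_left (by push_cast; omega)]
      simp
  rw [Finset.mul_sum, Finset.sum_congr rfl hterm, Finset.sum_range_sub']
  have h0 : f 0 ≤ B := by
    simp only [hf]
    exact max_le (by exact_mod_cast hAB) (min_le_right _ _)
  have h1 : (A : ℤ) ≤ f (n / q + 1) := le_max_left _ _
  linarith

lemma count_le' {q : ℕ} (hq : 0 < q) {A B n : ℕ} (hA : A ≡ n [MOD q]) (hB : B ≡ n [MOD q]) :
    (q : ℤ) * ∑ j ∈ range (n / q + 1),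
      |(if A ≤ n - j * q then (1 : ℤ) else 0) - (if B ≤ n - j * q then 1 else 0)| ≤
        |(A : ℤ) - B| := by
  rcases le_total A B with h | h
  · have := count_le hq hA hB h
    rw [abs_sub_comm (A : ℤ) B, abs_of_nonneg (by push_cast; omega : (0 : ℤ) ≤ (B : ℤ) - A)]
    exact this
  · have := count_le hq hB hA h
    rw [abs_of_nonneg (by push_cast; omega : (0 : ℤ) ≤ (A : ℤ) - B)]
    simpa only [abs_sub_comm] using this

/-- The threshold. -/
def T (p q : ℕ) [Fact q.Prime] (k n : ℕ) : ℕ := w p q ((n : ZMod q) - k) + k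

lemma T_mod (hp : p.Prime) [hq : Fact q.Prime] (hpq : p < q) (k n : ℕ) : T p q k n ≡ n [MOD q] := by
  apply (ZMod.natCast_eq_natCast_iff _ _ _).1
  rw [T, Nat.cast_add, cast_w hp hpq]; ring

lemma E_eq [hq : Fact q.Prime] (k n j : ℕ) (hj : j * q ≤ n) :
    E p q k (n - j * q) = if T p q k n ≤ n - j * q then 1 else 0 := by
  unfold E T
  have : ((n - j * q : ℕ) : ZMod q) = (n : ZMod q) := by
    rw [Nat.cast_sub hj]; simp
  rw [this]

lemma sum_E_le (hp : p.Prime) [hq : Fact q.Prime] (hpq : p < q) (k l n : ℕ) :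
    (q : ℤ) * ∑ j ∈ range (n / q + 1), |E p q k (n - j * q) - E p q l (n - j * q)| ≤
      |(T p q k n : ℤ) - T p q l n| := by
  refine le_trans (le_of_eq ?_) (count_le' hq.out.pos (T_mod hp hpq k n) (T_mod hp hpq l n))
  congr 1
  refine Finset.sum_congr rfl fun j hj => ?_
  rw [Finset.mem_range] at hj
  have hjq : j * q ≤ n := (Nat.le_div_iff_mul_le hq.out.pos).1 (by omega)
  rw [E_eq k n j hjq, E_eq l n j hjq]

lemma T_form (p q : ℕ) [hq : Fact q.Prime] (k n : ℕ) :
    ∃ i : ℤ, 0 ≤ i ∧ i ≤ (q : ℤ) - 1 ∧ (T p q k n : ℤ) = p * i + k := by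
  have : NeZero q := ⟨hq.out.pos.ne'⟩
  refine ⟨(((n : ZMod q) - (k : ZMod q)) * (p : ZMod q)⁻¹).val, by positivity, ?_, ?_⟩
  · have := ZMod.val_lt (((n : ZMod q) - (k : ZMod q)) * (p : ZMod q)⁻¹)
    omega
  · rw [T, w]; push_cast; ring

lemma Bd_cyclo (hp : p.Prime) [hq : Fact q.Prime] (hpq : p < q) :
    Bd q p (cyclotomic (p * q) ℤ) := by
  intro n
  have hq0 : (0 : ℤ) < q := by exact_mod_cast hq.out.pos
  have h1 : (q : ℤ) * S q (cyclotomic (p * q) ℤ) n ≤ |(T p q 0 n : ℤ) - T p q 1 n| := by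
    refine le_trans (le_of_eq ?_) (sum_E_le hp hpq 0 1 n)
    unfold S
    congr 1
    exact Finset.sum_congr rfl fun j _ => by rw [coeff_cyclo hp hpq]
  obtain ⟨i, hi0, hi1, hi⟩ := T_form p q 0 n
  obtain ⟨i', hi0', hi1', hi'⟩ := T_form p q 1 n
  have hp2 : (2 : ℤ) ≤ p := by exact_mod_cast hp.two_le
  rw [hi, hi'] at h1
  have h2 : |(p : ℤ) * i + (0 : ℕ) - (p * i' + (1 : ℕ))| ≤ q * p := by
    push_cast
    rw [abs_le]
    constructor <;> nlinarith
  have h3 := h1.trans h2
  exact le_of_mul_le_mul_left h3 hq0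

lemma key_numeric {p q i j k : ℤ} (hp : 2 ≤ p) (hq : 0 < q) (hcop : IsCoprime q p)
    (hi0 : 0 ≤ i) (hi1 : i ≤ q - 1) (hj0 : 0 ≤ j) (hj1 : j ≤ q - 1) (hk0 : 0 ≤ k) (hk1 : k ≤ q - 1)
    (h1 : q ∣ (p * i) - (p * j + 1)) (h2 : q ∣ (p * j + 1) - (p * k + 2)) :
    |(p * i) - (p * j + 1)| + |(p * j + 1) - (p * k + 2)| ≤ q * p := by
  have h3 : q ∣ p * (i - 2 * j + k) := by
    have := dvd_sub h1 h2
    have e : p * (i - 2 * j + k) = (p * i - (p * j + 1)) - ((p * j + 1) - (p * k + 2)) := by ring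
    rwa [e]
  obtain ⟨s, hs⟩ := hcop.dvd_of_dvd_mul_left h3
  have hd : (p * i - (p * j + 1)) - ((p * j + 1) - (p * k + 2)) = q * p * s := by
    have : (p * i - (p * j + 1)) - ((p * j + 1) - (p * k + 2)) = p * (i - 2 * j + k) := by ring
    rw [this, hs]; ring
  obtain ⟨P, hP⟩ : ∃ P : ℤ, P = q * p := ⟨_, rfl⟩
  have hPi : p * i ≤ P - p := by rw [hP]; nlinarith
  have hPj : p * j ≤ P - p := by rw [hP]; nlinarith
  have hPk : p * k ≤ P - p := by rw [hP]; nlinarith
  have hi : 0 ≤ p * i := by positivity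
  have hj : 0 ≤ p * j := by positivity
  have hk : 0 ≤ p * k := by positivity
  rw [← hP] at hd ⊢
  have hPpos : 0 < P := by rw [hP]; positivity
  have hs2 : s < 2 := by
    by_contra h
    push Not at h
    nlinarith
  have hs3 : -2 < s := by
    by_contra h
    push Not at h
    nlinarith
  have : s = -1 ∨ s = 0 ∨ s = 1 := by omega
  generalize p * i = a at *
  generalize p * j = b at *
  generalize p * k = c at *
  rcases this with rfl | rfl | rfl
  · rcases abs_cases (a - (b + 1)) with h | h <;> rcases abs_cases (b + 1 - (c + 2)) with h' | h' <;>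
      omega
  · rcases abs_cases (a - (b + 1)) with h | h <;> rcases abs_cases (b + 1 - (c + 2)) with h' | h' <;>
      omega
  · rcases abs_cases (a - (b + 1)) with h | h <;> rcases abs_cases (b + 1 - (c + 2)) with h' | h' <;>
      omega

lemma Bd_cyclo' (hp : p.Prime) [hq : Fact q.Prime] (hpq : p < q) :
    Bd q p ((X - 1) * cyclotomic (p * q) ℤ) := by
  intro n
  have hq0 : (0 : ℤ) < q := by exact_mod_cast hq.out.pos
  have h1 : (q : ℤ) * S q ((X - 1) * cyclotomic (p * q) ℤ) n ≤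
      |(T p q 0 n : ℤ) - T p q 1 n| + |(T p q 1 n : ℤ) - T p q 2 n| := by
    refine le_trans ?_ (add_le_add (sum_E_le hp hpq 0 1 n) (sum_E_le hp hpq 1 2 n))
    rw [← mul_add, ← Finset.sum_add_distrib]
    refine mul_le_mul_of_nonneg_left ?_ hq0.le
    unfold S
    refine Finset.sum_le_sum fun j _ => ?_
    rw [coeff_cyclo' hp hpq]
    refine (abs_add_le _ _).trans ?_
    rw [abs_neg]
  have m01 : (q : ℤ) ∣ (T p q 0 n : ℤ) - T p q 1 n :=
    (Int.modEq_iff_dvd.1 (Int.natCast_modEq_iff.2 ((T_mod hp hpq 1 n).trans (T_mod hp hpq 0 n).symm)))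
  have m12 : (q : ℤ) ∣ (T p q 1 n : ℤ) - T p q 2 n :=
    (Int.modEq_iff_dvd.1 (Int.natCast_modEq_iff.2 ((T_mod hp hpq 2 n).trans (T_mod hp hpq 1 n).symm)))
  obtain ⟨i, hi0, hi1, hi⟩ := T_form p q 0 n
  obtain ⟨j, hj0, hj1, hj⟩ := T_form p q 1 n
  obtain ⟨k, hk0, hk1, hk⟩ := T_form p q 2 n
  have hp2 : (2 : ℤ) ≤ p := by exact_mod_cast hp.two_le
  have hcop : IsCoprime (q : ℤ) p := by
    rw [Nat.isCoprime_iff_coprime]
    exact (Nat.coprime_primes hq.out hp).2 hpq.ne'
  rw [hi, hj, hk] at h1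
  rw [hi, hj] at m01
  rw [hj, hk] at m12
  push_cast at h1 m01 m12
  rw [add_zero] at h1 m01
  have h2 := key_numeric hp2 hq0 hcop hi0 hi1 hj0 hj1 hk0 hk1 m01 m12
  exact le_of_mul_le_mul_left (h1.trans h2) hq0

end Pool.Agent.H11_Height
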