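import Mathlib

namespace Pool.Agent.H11_Height

open Polynomial Finset

/-- The height of an integer polynomial: the maximum of the absolute values of its coefficients. -/
def height (f : ℤ[X]) : ℕ := f.support.sup fun i => (f.coeff i).natAbs

/-- The set of heights of the divisors of `X ^ n - 1` in `ℤ[X]`. -/
def heights (n : ℕ) : Set ℕ := {h | ∃ f : ℤ[X], f ∣ X ^ n - 1 ∧ height f = h}

/-- `B n` is the largest height of a divisor of `X ^ n - 1` in `ℤ[X]`. -/
noncomputable def B (n : ℕ) : ℕ := sSup (heights n)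

lemma coeff_le_height (f : ℤ[X]) (n : ℕ) : (f.coeff n).natAbs ≤ height f := by
  by_cases h : f.coeff n = 0
  · simp [h]
  · exact Finset.le_sup (f := fun i => (f.coeff i).natAbs) (mem_support_iff.2 h)

lemma height_le {f : ℤ[X]} {C : ℕ} (h : ∀ n, (f.coeff n).natAbs ≤ C) : height f ≤ C :=
  Finset.sup_le fun i _ => h i

lemma exists_height (f : ℤ[X]) : ∃ n, (f.coeff n).natAbs = height f := by
  by_cases h : f.support.Nonempty
  · obtain ⟨i, _, hi⟩ := Finset.exists_mem_eq_sup f.support h fun i => (f.coeff i).natAbs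
    exact ⟨i, hi.symm⟩
  · rw [Finset.not_nonempty_iff_eq_empty, support_eq_empty] at h
    exact ⟨0, by simp [h, height]⟩

lemma height_neg (f : ℤ[X]) : height (-f) = height f := by
  simp [height]

lemma height_associated {f g : ℤ[X]} (h : Associated f g) : height f = height g := by
  obtain ⟨u, rfl⟩ := h
  obtain ⟨r, hr, hu⟩ := Polynomial.isUnit_iff.1 u.isUnit
  rcases Int.isUnit_iff.1 hr with rfl | rfl
  · simp [← hu]
  · rw [← hu]
    simp [height_neg]

/-! ### Residue class sums -/

/-- The sum of the absolute values of the coefficients of `u` at `n, n - q, n - 2 q, ...`. -/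
def S (q : ℕ) (u : ℤ[X]) (n : ℕ) : ℤ := ∑ j ∈ range (n / q + 1), |u.coeff (n - j * q)|

/-- All the residue class sums are at most `C`. -/
def Bd (q : ℕ) (C : ℤ) (u : ℤ[X]) : Prop := ∀ n, S q u n ≤ C

lemma S_nonneg (q : ℕ) (u : ℤ[X]) (n : ℕ) : 0 ≤ S q u n :=
  Finset.sum_nonneg fun _ _ => abs_nonneg _

lemma Bd.nonneg {q : ℕ} {C : ℤ} {u : ℤ[X]} (h : Bd q C u) : 0 ≤ C :=
  (S_nonneg q u 0).trans (h 0)

lemma Bd.mono {q : ℕ} {C D : ℤ} {u : ℤ[X]} (h : Bd q C u) (hCD : C ≤ D) : Bd q D u :=
  fun n => (h n).trans hCD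

lemma Bd.neg {q : ℕ} {C : ℤ} {u : ℤ[X]} (h : Bd q C u) : Bd q C (-u) := by
  intro n
  have : S q (-u) n = S q u n := by simp [S]
  rw [this]; exact h n

lemma Bd.add {q : ℕ} {C D : ℤ} {u v : ℤ[X]} (h : Bd q C u) (h' : Bd q D v) :
    Bd q (C + D) (u + v) := by
  intro n
  calc S q (u + v) n ≤ S q u n + S q v n := by
        unfold S
        rw [← Finset.sum_add_distrib]
        refine Finset.sum_le_sum fun j _ => ?_
        rw [coeff_add]; exact abs_add_le _ _
    _ ≤ C + D := add_le_add (h n) (h' n)

lemma Bd.sub {q : ℕ} {C D : ℤ} {u v : ℤ[X]} (h : Bd q C u) (h' : Bd q D v) :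
    Bd q (C + D) (u - v) := by
  rw [sub_eq_add_neg]; exact h.add h'.neg

lemma Bd.sum {q : ℕ} {C : ℤ} {ι : Type*} (s : Finset ι) (u : ι → ℤ[X])
    (h : ∀ i ∈ s, Bd q C (u i)) : Bd q (s.card * C) (∑ i ∈ s, u i) := by
  classical
  induction s using Finset.induction_on with
  | empty => intro n; simp [S]
  | insert a s ha ih =>
    rw [Finset.sum_insert ha, Finset.card_insert_of_notMem ha]
    have h1 := h a (Finset.mem_insert_self a s)
    have h2 := ih fun i hi => h i (Finset.mem_insert_of_mem hi)
    refine (h1.add h2).mono (le_of_eq ?_)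
    push_cast; ring

lemma Bd.shift {q : ℕ} (hq : 0 < q) {C : ℤ} {u : ℤ[X]} (h : Bd q C u) (k : ℕ) :
    Bd q C (X ^ k * u) := by
  intro n
  by_cases hk : k ≤ n
  · refine le_trans (le_of_eq ?_) (h (n - k))
    unfold S
    have hsub : range ((n - k) / q + 1) ⊆ range (n / q + 1) := by
      intro j hj
      rw [Finset.mem_range] at hj ⊢
      have := Nat.div_le_div_right (c := q) (Nat.sub_le n k)
      omega
    rw [← Finset.sum_subset hsub]
    · refine Finset.sum_congr rfl fun j hj => ?_
      rw [Finset.mem_range] at hj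
      have hj' : j * q ≤ n - k := by
        have : j ≤ (n - k) / q := by omega
        exact (Nat.le_div_iff_mul_le hq).1 this
      rw [coeff_X_pow_mul', if_pos (by omega)]
      congr 2; omega
    · intro j hj hj'
      rw [Finset.mem_range] at hj hj'
      have h1 : ¬ j * q ≤ n - k := by
        intro h2
        exact hj' (Nat.lt_succ_of_le ((Nat.le_div_iff_mul_le hq).2 h2))
      have h3 : j * q ≤ n := (Nat.le_div_iff_mul_le hq).1 (by omega)
      rw [coeff_X_pow_mul', if_neg (by omega)]
      simp
  · have h0 : S q (X ^ k * u) n = 0 := by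
      unfold S
      refine Finset.sum_eq_zero fun j _ => ?_
      rw [coeff_X_pow_mul', if_neg (by omega)]
      simp
    rw [h0]; exact h.nonneg

/-- A polynomial with coefficients in `{-1,0,1}` and at most one nonzero coefficient in each
residue class. -/
lemma Bd.of_sparse {q : ℕ} (hq : 0 < q) {u : ℤ[X]} (h1 : ∀ n, |u.coeff n| ≤ 1)
    (h2 : ∀ m n, m ≡ n [MOD q] → u.coeff m ≠ 0 → u.coeff n ≠ 0 → m = n) : Bd q 1 u := by
  intro n
  unfold S
  by_cases h : ∃ j ∈ range (n / q + 1), u.coeff (n - j * q) ≠ 0
  · obtain ⟨j, hj, hj0⟩ := h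
    rw [Finset.sum_eq_single j]
    · exact h1 _
    · intro i hi hij
      by_contra hne
      have hne' : u.coeff (n - i * q) ≠ 0 := fun h0 => hne (by rw [h0]; simp)
      rw [Finset.mem_range] at hi hj
      have hi' : i * q ≤ n := (Nat.le_div_iff_mul_le hq).1 (by omega)
      have hj' : j * q ≤ n := (Nat.le_div_iff_mul_le hq).1 (by omega)
      have hm : n - i * q ≡ n - j * q [MOD q] := by
        have e1 : n - i * q ≡ n [MOD q] := by
          have : n - i * q ≡ n - i * q + i * q [MOD q] := by
            simp [Nat.ModEq]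
          rwa [Nat.sub_add_cancel hi'] at this
        have e2 : n - j * q ≡ n [MOD q] := by
          have : n - j * q ≡ n - j * q + j * q [MOD q] := by
            simp [Nat.ModEq]
          rwa [Nat.sub_add_cancel hj'] at this
        exact e1.trans e2.symm
      have := h2 _ _ hm hne' hj0
      have h4 : i * q = j * q := by omega
      exact hij (Nat.eq_of_mul_eq_mul_right hq h4)
    · intro hj'; exact absurd hj hj'
  · push Not at h
    rw [Finset.sum_eq_zero fun j hj => by rw [h j hj]; simp]
    exact zero_le_one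

lemma coeff_mul_expand {q : ℕ} (hq : 0 < q) (u g : ℤ[X]) (n : ℕ) :
    (u * expand ℤ q g).coeff n = ∑ j ∈ range (n / q + 1), g.coeff j * u.coeff (n - j * q) := by
  induction g using Polynomial.induction_on' with
  | add g h hg hh =>
    rw [map_add, mul_add, coeff_add, hg, hh, ← Finset.sum_add_distrib]
    refine Finset.sum_congr rfl fun j _ => ?_
    rw [coeff_add]; ring
  | monomial k a =>
    rw [expand_monomial, ← C_mul_X_pow_eq_monomial, ← C_mul_X_pow_eq_monomial,
      mul_left_comm, coeff_C_mul, coeff_mul_X_pow']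
    by_cases hk : k * q ≤ n
    · rw [if_pos hk, Finset.sum_eq_single k]
      · simp
      · intro j _ hj
        simp [coeff_X_pow, hj]
      · intro hk'
        exact absurd (Finset.mem_range.2 (Nat.lt_succ_of_le ((Nat.le_div_iff_mul_le hq).2 hk))) hk'
    · rw [if_neg hk, Finset.sum_eq_zero]
      · simp
      · intro j hj
        rw [Finset.mem_range] at hj
        have hj' : j * q ≤ n := (Nat.le_div_iff_mul_le hq).1 (by omega)
        have : j ≠ k := fun h => hk (h ▸ hj')
        simp [coeff_X_pow, this]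

/-- The main inequality. -/
lemma height_mul_expand_le {q : ℕ} (hq : 0 < q) {C : ℕ} {u : ℤ[X]} (h : Bd q C u) (g : ℤ[X]) :
    height (u * expand ℤ q g) ≤ C * height g := by
  refine height_le fun n => ?_
  have h1 : (((u * expand ℤ q g).coeff n).natAbs : ℤ) ≤ C * height g := by
    rw [Int.natCast_natAbs, coeff_mul_expand hq]
    calc |∑ j ∈ range (n / q + 1), g.coeff j * u.coeff (n - j * q)|
        ≤ ∑ j ∈ range (n / q + 1), |g.coeff j * u.coeff (n - j * q)| :=
          Finset.abs_sum_le_sum_abs _ _
      _ ≤ ∑ j ∈ range (n / q + 1), (height g : ℤ) * |u.coeff (n - j * q)| := by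
          refine Finset.sum_le_sum fun j _ => ?_
          rw [abs_mul]
          refine mul_le_mul_of_nonneg_right ?_ (abs_nonneg _)
          rw [← Int.natCast_natAbs]
          exact_mod_cast coeff_le_height g j
      _ = (height g : ℤ) * S q u n := by rw [S, Finset.mul_sum]
      _ ≤ (height g : ℤ) * C := mul_le_mul_of_nonneg_left (h n) (by positivity)
      _ = C * height g := mul_comm _ _
  exact_mod_cast h1

end Pool.Agent.H11_Height
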