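import Pool.Agent.H11_Height.Apery

namespace Pool.Agent.H11_Height

open Polynomial Finset

variable {p q : ℕ}

/-! ### The simple factors -/

lemma coeff_geom (m n : ℕ) : (∑ i ∈ range m, (X : ℤ[X]) ^ i).coeff n = if n < m then 1 else 0 := by
  rw [finsetSum_coeff]
  simp only [coeff_X_pow]
  rw [Finset.sum_ite_eq (range m) n]
  simp [Finset.mem_range]

lemma Bd_one (hq : 0 < q) : Bd q 1 (1 : ℤ[X]) := by
  refine Bd.of_sparse hq (fun n => ?_) fun m n _ hm hn => ?_
  · rw [coeff_one]; split_ifs <;> simp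
  · rw [coeff_one] at hm hn
    have h1 : m = 0 := by by_contra h; rw [if_neg (by omega)] at hm; exact hm rfl
    have h2 : n = 0 := by by_contra h; rw [if_neg (by omega)] at hn; exact hn rfl
    rw [h1, h2]

lemma Bd_X_sub_one (hq : 2 ≤ q) : Bd q 1 (X - 1 : ℤ[X]) := by
  have hc : ∀ n, (X - 1 : ℤ[X]).coeff n = if n = 0 then -1 else if n = 1 then 1 else 0 := by
    intro n
    rw [coeff_sub, coeff_X, coeff_one]
    by_cases h0 : n = 0
    · subst h0; simp
    · by_cases h1 : n = 1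
      · subst h1; simp
      · rw [if_neg (by omega), if_neg (by omega), if_neg h0, if_neg h1]; simp
  refine Bd.of_sparse (by omega) (fun n => ?_) fun m n h hm hn => ?_
  · rw [hc]; split_ifs <;> simp
  · rw [hc] at hm hn
    have h1 : m < 2 := by
      by_contra h; rw [if_neg (by omega), if_neg (by omega)] at hm; exact hm rfl
    have h2 : n < 2 := by
      by_contra h; rw [if_neg (by omega), if_neg (by omega)] at hn; exact hn rfl
    exact Nat.ModEq.eq_of_lt_of_lt h (by omega) (by omega)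

lemma Bd_geom (hq : 0 < q) {m : ℕ} (hm : m ≤ q) : Bd q 1 (∑ i ∈ range m, (X : ℤ[X]) ^ i) := by
  refine Bd.of_sparse hq (fun n => ?_) fun a b h ha hb => ?_
  · rw [coeff_geom]; split_ifs <;> simp
  · rw [coeff_geom] at ha hb
    have h1 : a < m := by by_contra h; rw [if_neg h] at ha; exact ha rfl
    have h2 : b < m := by by_contra h; rw [if_neg h] at hb; exact hb rfl
    exact Nat.ModEq.eq_of_lt_of_lt h (by omega) (by omega)

lemma Bd_G (hp : p.Prime) [hq : Fact q.Prime] (hpq : p < q) : Bd q 1 (G p q) := by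
  refine Bd.of_sparse hq.out.pos (fun n => ?_) fun a b h ha hb => ?_
  · rw [coeff_G hp hpq]; split_ifs <;> simp
  · rw [coeff_G hp hpq] at ha hb
    have h1 : w p q (a : ZMod q) = a := by by_contra h; rw [if_neg h] at ha; exact ha rfl
    have h2 : w p q (b : ZMod q) = b := by by_contra h; rw [if_neg h] at hb; exact hb rfl
    have h3 : (a : ZMod q) = b := (ZMod.natCast_eq_natCast_iff _ _ _).2 h
    rw [← h1, ← h2, h3]

/-- Multiplication by `1 + X^k + ... + X^{k(m-1)}`. -/
lemma Bd.mul_geom (hq : 0 < q) {C : ℤ} {u : ℤ[X]} (h : Bd q C u) (k m : ℕ) :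
    Bd q (m * C) ((∑ i ∈ range m, (X : ℤ[X]) ^ (k * i)) * u) := by
  rw [Finset.sum_mul]
  have := Bd.sum (q := q) (C := C) (range m) (fun i => (X : ℤ[X]) ^ (k * i) * u)
    fun i _ => h.shift hq (k * i)
  rwa [Finset.card_range] at this

lemma Bd.mul_X_sub_one (hq : 0 < q) {C : ℤ} {u : ℤ[X]} (h : Bd q C u) :
    Bd q (2 * C) ((X - 1) * u) := by
  have h1 := (h.shift hq 1).sub h
  rw [pow_one] at h1
  have e : (X - 1 : ℤ[X]) * u = X * u - u := by ring
  rw [e, two_mul]; exact h1

lemma Bd.mul_X_pow_sub_one (hq : 0 < q) {C : ℤ} {u : ℤ[X]} (h : Bd q C u) (k : ℕ) :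
    Bd q (2 * C) ((X ^ k - 1) * u) := by
  have h1 := (h.shift hq k).sub h
  have e : (X ^ k - 1 : ℤ[X]) * u = X ^ k * u - u := by ring
  rw [e, two_mul]; exact h1

lemma cyc_p (hp : p.Prime) : cyclotomic p ℤ = ∑ i ∈ range p, X ^ i := by
  have := Fact.mk hp
  exact cyclotomic_prime ℤ p

lemma X_sub_one_mul_cyc (hp : p.Prime) : (X - 1) * cyclotomic p ℤ = X ^ p - 1 := by
  have := Fact.mk hp
  rw [mul_comm]
  exact cyclotomic_prime_mul_X_sub_one ℤ p

/-- `Φ_q Φ_{pq} = ∑ i < q, X^{p i}`. -/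
lemma cyc_q_pq (hp : p.Prime) (hq : q.Prime) (hpq : p < q) :
    cyclotomic q ℤ * cyclotomic (p * q) ℤ = G p q := by
  have h1 : expand ℤ p (cyclotomic q ℤ) = cyclotomic (q * p) ℤ * cyclotomic q ℤ := by
    apply cyclotomic_expand_eq_cyclotomic_mul hp
    intro h
    exact absurd ((Nat.prime_dvd_prime_iff_eq hp hq).1 h) hpq.ne
  have h2 : expand ℤ p (cyclotomic q ℤ) = G p q := by
    rw [cyc_p hq, map_sum, G]
    refine Finset.sum_congr rfl fun i _ => ?_
    rw [map_pow, expand_X, ← pow_mul]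
  rw [← h2, h1, mul_comm p q]; ring

/-- `Φ_p Φ_{pq} = ∑ i < p, X^{q i}`. -/
lemma cyc_p_pq (hp : p.Prime) (hq : q.Prime) (hpq : p < q) :
    cyclotomic p ℤ * cyclotomic (p * q) ℤ = ∑ i ∈ range p, X ^ (q * i) := by
  have h1 : expand ℤ q (cyclotomic p ℤ) = cyclotomic (p * q) ℤ * cyclotomic p ℤ := by
    apply cyclotomic_expand_eq_cyclotomic_mul hq
    intro h
    exact absurd (Nat.le_of_dvd hp.pos h) (by omega)
  have h2 : expand ℤ q (cyclotomic p ℤ) = ∑ i ∈ range p, X ^ (q * i) := by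
    rw [cyc_p hp, map_sum]
    refine Finset.sum_congr rfl fun i _ => ?_
    rw [map_pow, expand_X, ← pow_mul]
  rw [← h2, h1]; ring

/-- The residue class bound for all sixteen products. -/
lemma Bd_all (hp : p.Prime) (hq : q.Prime) (hpq : p < q) (a b c d : Prop)
    [Decidable a] [Decidable b] [Decidable c] [Decidable d] :
    Bd q p ((if a then X - 1 else 1) * (if b then cyclotomic p ℤ else 1) *
      (if c then cyclotomic q ℤ else 1) * (if d then cyclotomic (p * q) ℤ else 1)) := by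
  have := Fact.mk hq
  have hp2 : (2 : ℤ) ≤ p := by exact_mod_cast hp.two_le
  have hq0 := hq.pos
  have B1 : Bd q 1 (cyclotomic p ℤ) := by rw [cyc_p hp]; exact Bd_geom hq0 hpq.le
  have B2 : Bd q 1 (cyclotomic q ℤ) := by rw [cyc_p hq]; exact Bd_geom hq0 le_rfl
  by_cases ha : a <;> by_cases hb : b <;> by_cases hc : c <;> by_cases hd : d <;>
    simp only [ha, hb, hc, hd, if_true, if_false, one_mul, mul_one]
  · -- all four
    have e : (X - 1) * cyclotomic p ℤ * cyclotomic q ℤ * cyclotomic (p * q) ℤ =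
        (X ^ q - 1) * ((∑ i ∈ range p, X ^ (q * i)) * 1) := by
      rw [← cyc_p_pq hp hq hpq, ← X_sub_one_mul_cyc hq]; ring
    have e2 : (X ^ q - 1 : ℤ[X]) * ((∑ i ∈ range p, X ^ (q * i)) * 1) = (X ^ (q * p) - 1) * 1 := by
      have := mul_geom_sum (X ^ q : ℤ[X]) p
      simp only [← pow_mul] at this
      rw [mul_one, this, mul_one]
    rw [e, e2]
    exact ((Bd_one hq0).mul_X_pow_sub_one hq0 _).mono (by linarith)
  · -- 1, p, q
    have e : (X - 1) * cyclotomic p ℤ * cyclotomic q ℤ = (X ^ q - 1) * cyclotomic p ℤ := by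
      rw [← X_sub_one_mul_cyc hq]; ring
    rw [e]
    exact (B1.mul_X_pow_sub_one hq0 _).mono (by linarith)
  · -- 1, p, pq
    have e : (X - 1) * cyclotomic p ℤ * cyclotomic (p * q) ℤ =
        (∑ i ∈ range p, X ^ (q * i)) * (X - 1) := by
      rw [← cyc_p_pq hp hq hpq]; ring
    rw [e]
    exact ((Bd_X_sub_one hq.two_le).mul_geom hq0 q p).mono (by linarith)
  · -- 1, p
    exact (B1.mul_X_sub_one hq0).mono (by linarith)
  · -- 1, q, pq
    rw [mul_assoc, cyc_q_pq hp hq hpq]
    exact ((Bd_G hp hpq).mul_X_sub_one hq0).mono (by linarith)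
  · -- 1, q
    exact (B2.mul_X_sub_one hq0).mono (by linarith)
  · -- 1, pq
    exact Bd_cyclo' hp hpq
  · -- 1
    exact (Bd_X_sub_one hq.two_le).mono (by linarith)
  · -- p, q, pq
    have e : cyclotomic p ℤ * cyclotomic q ℤ * cyclotomic (p * q) ℤ =
        (∑ i ∈ range p, X ^ (q * i)) * cyclotomic q ℤ := by
      rw [← cyc_p_pq hp hq hpq]; ring
    rw [e]
    exact (B2.mul_geom hq0 q p).mono (by linarith)
  · -- p, q
    have e : cyclotomic p ℤ * cyclotomic q ℤ =
        (∑ i ∈ range p, X ^ (1 * i)) * cyclotomic q ℤ := by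
      rw [cyc_p hp]; simp only [one_mul]
    rw [e]
    exact (B2.mul_geom hq0 1 p).mono (by linarith)
  · -- p, pq
    have e : cyclotomic p ℤ * cyclotomic (p * q) ℤ =
        (∑ i ∈ range p, X ^ (q * i)) * 1 := by
      rw [cyc_p_pq hp hq hpq, mul_one]
    rw [e]
    exact ((Bd_one hq0).mul_geom hq0 q p).mono (by linarith)
  · -- p
    exact B1.mono (by linarith)
  · -- q, pq
    rw [cyc_q_pq hp hq hpq]
    exact (Bd_G hp hpq).mono (by linarith)
  · -- q
    exact B2.mono (by linarith)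
  · -- pq
    exact Bd_cyclo hp hpq
  · exact (Bd_one hq0).mono (by linarith)

/-! ### The lower bound -/

lemma coeff_pq_mul_expand (hp : p.Prime) (hq : q.Prime) (hpq : p < q) (g : ℤ[X]) (k : ℕ) :
    (cyclotomic p ℤ * cyclotomic q ℤ * expand ℤ q g).coeff (k * q + (q - 1)) = p * g.coeff k := by
  have hq0 := hq.pos
  have hc : ∀ m, (cyclotomic p ℤ * cyclotomic q ℤ).coeff m =
      ∑ i ∈ range p, if i ≤ m ∧ m - i < q then 1 else 0 := by
    intro m
    rw [cyc_p hp, Finset.sum_mul, finsetSum_coeff]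
    refine Finset.sum_congr rfl fun i _ => ?_
    rw [coeff_X_pow_mul', cyc_p hq, coeff_geom]
    by_cases h : i ≤ m
    · by_cases h' : m - i < q
      · rw [if_pos h, if_pos h', if_pos ⟨h, h'⟩]
      · rw [if_pos h, if_neg h', if_neg (fun H => h' H.2)]
    · rw [if_neg h, if_neg (fun H => h H.1)]
  rw [coeff_mul_expand hq0]
  have hdiv : (k * q + (q - 1)) / q = k := by
    rw [mul_comm, Nat.mul_add_div hq0, Nat.div_eq_of_lt (by omega)]; rfl
  rw [hdiv, Finset.sum_eq_single k]
  · have : k * q + (q - 1) - k * q = q - 1 := by omega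
    rw [this, hc, Finset.sum_congr rfl (g := fun _ => (1 : ℤ))]
    · rw [Finset.sum_const, Finset.card_range]; simp; ring
    · intro i hi
      rw [Finset.mem_range] at hi
      rw [if_pos]
      omega
  · intro j hj hjk
    rw [Finset.mem_range] at hj
    have hjk' : j + 1 ≤ k := by omega
    have h1 : (j + 1) * q ≤ k * q := Nat.mul_le_mul_right q hjk'
    rw [hc, Finset.sum_eq_zero]
    · ring
    · intro i hi
      rw [Finset.mem_range] at hi
      rw [if_neg]
      rintro ⟨h2, h3⟩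
      have : (j + 1) * q = j * q + q := by ring
      omega
  · intro h
    exact absurd (Finset.mem_range.2 (Nat.lt_succ_self k)) h

lemma le_height_pq (hp : p.Prime) (hq : q.Prime) (hpq : p < q) (g : ℤ[X]) :
    p * height g ≤ height (cyclotomic p ℤ * cyclotomic q ℤ * expand ℤ q g) := by
  obtain ⟨k, hk⟩ := exists_height g
  have := coeff_le_height (cyclotomic p ℤ * cyclotomic q ℤ * expand ℤ q g) (k * q + (q - 1))
  rw [coeff_pq_mul_expand hp hq hpq, Int.natAbs_mul, hk, Int.natAbs_natCast] at this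
  exact this

/-! ### Divisors of `X ^ n - 1` -/

lemma dvd_prod_cyclotomic (D : Finset ℕ) (hD : ∀ d ∈ D, 0 < d) (f : ℤ[X])
    (hf : f ∣ ∏ d ∈ D, cyclotomic d ℤ) : ∃ S ⊆ D, Associated f (∏ d ∈ S, cyclotomic d ℤ) := by
  classical
  induction D using Finset.induction_on generalizing f with
  | empty =>
    refine ⟨∅, Finset.Subset.refl _, ?_⟩
    rw [Finset.prod_empty] at hf ⊢
    exact associated_one_iff_isUnit.2 (isUnit_of_dvd_one hf)
  | insert a D ha ih =>
    have hpos : 0 < a := hD a (Finset.mem_insert_self a D)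
    have hprime : Prime (cyclotomic a ℤ) := (cyclotomic.irreducible hpos).prime
    have ih' := ih fun d hd => hD d (Finset.mem_insert_of_mem hd)
    rw [Finset.prod_insert ha] at hf
    by_cases h : cyclotomic a ℤ ∣ f
    · obtain ⟨f', rfl⟩ := h
      obtain ⟨S, hS, hfS⟩ := ih' f' ((mul_dvd_mul_iff_left hprime.ne_zero).1 hf)
      refine ⟨insert a S, Finset.insert_subset_insert a hS, ?_⟩
      rw [Finset.prod_insert (fun h => ha (hS h))]
      exact hfS.mul_left _
    · obtain ⟨c, hc⟩ := hf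
      have h1 : cyclotomic a ℤ ∣ f * c := ⟨_, hc.symm⟩
      obtain ⟨c', rfl⟩ := (hprime.dvd_or_dvd h1).resolve_left h
      have h2 : f ∣ ∏ d ∈ D, cyclotomic d ℤ := by
        refine ⟨c', ?_⟩
        apply mul_left_cancel₀ hprime.ne_zero
        rw [hc]; ring
      obtain ⟨S, hS, hfS⟩ := ih' f h2
      exact ⟨S, hS.trans (Finset.subset_insert a D), hfS⟩

lemma divisor_form {n : ℕ} (hn : 0 < n) {f : ℤ[X]} (hf : f ∣ X ^ n - 1) :
    ∃ S ⊆ n.divisors, height f = height (∏ d ∈ S, cyclotomic d ℤ) := by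
  rw [← prod_cyclotomic_eq_X_pow_sub_one hn] at hf
  obtain ⟨S, hS, h⟩ := dvd_prod_cyclotomic n.divisors (fun d hd => Nat.pos_of_mem_divisors hd) f hf
  exact ⟨S, hS, height_associated h⟩

lemma prod_dvd {n : ℕ} (hn : 0 < n) {S : Finset ℕ} (hS : S ⊆ n.divisors) :
    ∏ d ∈ S, cyclotomic d ℤ ∣ X ^ n - 1 := by
  rw [← prod_cyclotomic_eq_X_pow_sub_one hn]
  exact Finset.prod_dvd_prod_of_subset _ _ _ hS

/-- `B n` is the maximum of the heights of the divisors of `X ^ n - 1`. -/
theorem isGreatest_B {n : ℕ} (hn : 0 < n) : IsGreatest (heights n) (B n) := by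
  classical
  have hne : (n.divisors.powerset).Nonempty := ⟨∅, by simp⟩
  obtain ⟨S, hS, hmax⟩ := Finset.exists_mem_eq_sup n.divisors.powerset hne
    fun S => height (∏ d ∈ S, cyclotomic d ℤ)
  have h : IsGreatest (heights n)
      (n.divisors.powerset.sup fun S => height (∏ d ∈ S, cyclotomic d ℤ)) := by
    constructor
    · rw [hmax]
      exact ⟨_, prod_dvd hn (Finset.mem_powerset.1 hS), rfl⟩
    · rintro _ ⟨f, hf, rfl⟩
      obtain ⟨S', hS', h⟩ := divisor_form hn hf
      rw [h]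
      exact Finset.le_sup (f := fun S => height (∏ d ∈ S, cyclotomic d ℤ))
        (Finset.mem_powerset.2 hS')
  have h2 : B n = _ := h.csSup_eq
  rw [h2]; exact h

lemma small_divisor (hp : p.Prime) (hq : q.Prime) {b d : ℕ} (hd : d ∣ p * q ^ b)
    (hd2 : ¬ q ^ 2 ∣ d) : d = 1 ∨ d = p ∨ d = q ∨ d = p * q := by
  obtain ⟨d1, d2, h1, h2, rfl⟩ := (Nat.dvd_mul).1 hd
  obtain ⟨k, _, rfl⟩ := (Nat.dvd_prime_pow hq).1 h2
  have hk : k < 2 := by
    by_contra h
    push Not at h
    exact hd2 ((pow_dvd_pow q h).trans (dvd_mul_left _ _))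
  rcases (Nat.dvd_prime hp).1 h1 with rfl | rfl
  · interval_cases k
    · simp
    · simp
  · interval_cases k
    · simp
    · simp

theorem dvd_B (hp : p.Prime) (hq : q.Prime) (hpq : p < q) {b : ℕ} (hb : 1 ≤ b) :
    p ∣ B (p * q ^ b) := by
  classical
  have hn : 0 < p * q ^ b := Nat.mul_pos hp.pos (pow_pos hq.pos b)
  obtain ⟨⟨f, hf, hfB⟩, hub⟩ := isGreatest_B hn
  obtain ⟨S, hS, hfS⟩ := divisor_form hn hf
  -- split `S`
  set S0 := S.filter fun d => ¬ q ^ 2 ∣ d with hS0
  set S1 := S.filter fun d => q ^ 2 ∣ d with hS1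
  set g : ℤ[X] := ∏ d ∈ S1, cyclotomic (d / q) ℤ with hg
  have hexp : ∏ d ∈ S1, cyclotomic d ℤ = expand ℤ q g := by
    rw [hg, map_prod]
    refine Finset.prod_congr rfl fun d hd => ?_
    have hd2 : q ^ 2 ∣ d := (Finset.mem_filter.1 hd).2
    obtain ⟨e, rfl⟩ := hd2
    have h1 : q ^ 2 * e / q = q * e := by
      rw [sq, mul_assoc, Nat.mul_div_cancel_left _ hq.pos]
    rw [h1, cyclotomic_expand_eq_cyclotomic hq (dvd_mul_right q e)]
    congr 1; ring
  have hsplit : ∏ d ∈ S, cyclotomic d ℤ = (∏ d ∈ S0, cyclotomic d ℤ) * expand ℤ q g := by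
    rw [← hexp, mul_comm]
    exact (Finset.prod_filter_mul_prod_filter_not S (fun d => q ^ 2 ∣ d) _).symm
  -- the small part
  have hp1 : p ≠ 1 := hp.ne_one
  have hq1 : q ≠ 1 := hq.ne_one
  have hS0sub : S0 ⊆ {1, p, q, p * q} := by
    intro d hd
    have h1 := Finset.mem_filter.1 hd
    have h2 := small_divisor hp hq (Nat.dvd_of_mem_divisors (hS h1.1)) h1.2
    simp only [Finset.mem_insert, Finset.mem_singleton]
    exact h2
  have hpqq : p * q ≠ q := by
    intro h
    have : p * q = 1 * q := by rw [h, one_mul]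
    exact hp1 (Nat.eq_of_mul_eq_mul_right hq.pos this)
  have hpqp : p * q ≠ p := by
    intro h
    have : p * q = p * 1 := by rw [h, mul_one]
    exact hq1 (Nat.eq_of_mul_eq_mul_left hp.pos this)
  have hpq1 : p * q ≠ 1 := by
    intro h
    exact hp1 (Nat.eq_one_of_mul_eq_one_right h)
  have hS0prod : ∏ d ∈ S0, cyclotomic d ℤ =
      (if 1 ∈ S0 then X - 1 else 1) * (if p ∈ S0 then cyclotomic p ℤ else 1) *
      (if q ∈ S0 then cyclotomic q ℤ else 1) * (if p * q ∈ S0 then cyclotomic (p * q) ℤ else 1) := by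
    have h1 : ∏ d ∈ S0, cyclotomic d ℤ =
        ∏ d ∈ ({1, p, q, p * q} : Finset ℕ), if d ∈ S0 then cyclotomic d ℤ else 1 := by
      rw [Finset.prod_ite_mem, Finset.inter_eq_right.2 hS0sub]
    rw [h1, Finset.prod_insert, Finset.prod_insert, Finset.prod_insert, Finset.prod_singleton,
      cyclotomic_one]
    · ring
    · simp only [Finset.mem_singleton]; exact hpqq.symm
    · simp only [Finset.mem_insert, Finset.mem_singleton, not_or]
      exact ⟨hpq.ne, hpqp.symm⟩
    · simp only [Finset.mem_insert, Finset.mem_singleton, not_or]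
      exact ⟨hp1.symm, hq1.symm, hpq1.symm⟩
  have hupper : B (p * q ^ b) ≤ p * height g := by
    rw [← hfB, hfS, hsplit, hS0prod]
    exact height_mul_expand_le hq.pos (Bd_all hp hq hpq _ _ _ _) g
  -- the lower bound
  have hlower : p * height g ≤ B (p * q ^ b) := by
    refine (le_height_pq hp hq hpq g).trans (hub ⟨_, ?_, rfl⟩)
    have h2 : cyclotomic p ℤ * cyclotomic q ℤ * expand ℤ q g =
        ∏ d ∈ insert p (insert q S1), cyclotomic d ℤ := by
      rw [Finset.prod_insert, Finset.prod_insert, hexp]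
      · ring
      · intro h
        have := Nat.le_of_dvd hq.pos (Finset.mem_filter.1 h).2
        nlinarith [hq.two_le]
      · rw [Finset.mem_insert, not_or]
        refine ⟨hpq.ne, fun h => ?_⟩
        have := Nat.le_of_dvd hp.pos (Finset.mem_filter.1 h).2
        nlinarith [hq.two_le]
    rw [h2]
    apply prod_dvd hn
    intro d hd
    rw [Finset.mem_insert, Finset.mem_insert] at hd
    rw [Nat.mem_divisors]
    refine ⟨?_, hn.ne'⟩
    rcases hd with rfl | rfl | hd
    · exact dvd_mul_right _ _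
    · exact (dvd_pow_self _ (by omega)).trans (dvd_mul_left _ _)
    · exact Nat.dvd_of_mem_divisors (hS (Finset.mem_filter.1 hd).1)
  exact ⟨height g, le_antisymm hupper hlower⟩

end Pool.Agent.H11_Height
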